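import Pool.Agent.H643R2.EadCone

set_option autoImplicit false

/-!
# A principal, translatable, product-closed rational cone not containing `Alg`
-/

namespace Pool.Agent.Results.MP_ead56d_lc.SmallerCone

open Pool.Agent.Helper288.Cone

/-- A family of languages over finite alphabets: `F X L` says that the language `L` over the finite
alphabet `X` belongs to the family. -/
abbrev Family := ∀ (X : Type) [Finite X], Language X → Prop

/-- `F` is closed under rational transductions (in Nivat form). -/
def IsRationalCone (F : Family) : Prop :=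
  ∀ (X Y : Type) [Finite X] [Finite Y] (L : Language X) (N : Language Y),
    F X L → InCone L N → F Y N

/-- `F` contains a language `L` and is contained in every rational cone containing `L`. (Together
with `IsRationalCone F` this says `F = T(L)`.) -/
def IsPrincipal (F : Family) : Prop :=
  ∃ (X : Type) (_ : Finite X) (L : Language X), F X L ∧
    ∀ G : Family, IsRationalCone G → G X L →
      ∀ (Y : Type) [Finite Y] (N : Language Y), F Y N → G Y N

/-- If `L` over `X` is in `F`, `X` is included in `Y` and `a`, `b` are two different letters of `Y`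
outside of `X`, then `{a^n f b^n : n ≥ 1, f ∈ L}` is in `F`. -/
def Translatable (F : Family) : Prop :=
  ∀ (X Y : Type) [Finite X] [Finite Y] (ι : X → Y) (a b : Y) (L : Language X),
    Function.Injective ι → a ∉ Set.range ι → b ∉ Set.range ι → a ≠ b → F X L →
      F Y {w | ∃ n, 1 ≤ n ∧ ∃ f ∈ L, w = List.replicate n a ++ f.map ι ++ List.replicate n b}

/-- `F` is closed under product. -/
def ProductClosed (F : Family) : Prop :=
  ∀ (X : Type) [Finite X] (L₁ L₂ : Language X), F X L₁ → F X L₂ → F X (L₁ * L₂)

/-- The language `{u c ũ : u ∈ {0,1}*}` of marked palindromes; `c` is `none` and `ũ` is the mirror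
image of `u`. -/
def MarkedPal : Language (Option Bool) :=
  {w | ∃ u : List Bool, w = u.map some ++ none :: (u.map some).reverse}

/-- There is a principal, translatable, product-closed rational cone which contains a nonempty
language and does not contain the context-free language of marked palindromes. -/
theorem result : ∃ F : Family, IsRationalCone F ∧ IsPrincipal F ∧ Translatable F ∧
    ProductClosed F ∧
    (∃ (X : Type) (_ : Finite X) (L : Language X), F X L ∧ ∃ w, w ∈ L) ∧
    MarkedPal.IsContextFree ∧ ¬ F (Option Bool) MarkedPal := by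
  have hid : InCone Pool.Agent.H643R2.Ead.Lg Pool.Agent.H643R2.Ead.Lg := by
    apply InCone_of_tr _ (Pool.Agent.H643R2.TrOps.idTr _)
    intro v
    constructor
    · intro h
      exact ⟨v, h, (Pool.Agent.H643R2.TrOps.idTr_rel v v).2 rfl⟩
    · rintro ⟨u, hu, h⟩
      rw [← (Pool.Agent.H643R2.TrOps.idTr_rel u v).1 h]
      exact hu
  refine ⟨fun Y _ N => InCone Pool.Agent.H643R2.Ead.Lg N, ?_, ?_, ?_, ?_, ?_, ?_, ?_⟩
  · intro X Y _ _ L N h h'
    have := Fintype.ofFinite Y
    exact h.trans h'
  · exact ⟨Pool.Agent.H643R2.Ead.Sg, inferInstance, Pool.Agent.H643R2.Ead.Lg, hid,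
      fun G hG hL Y _ N h => hG _ _ _ _ hL h⟩
  · intro X Y _ _ ι a b L _ _ _ _ h
    have := Fintype.ofFinite Y
    exact Pool.Agent.H643R2.Ead.cone_trans h ι a b
  · intro X _ L₁ L₂ h1 h2
    have := Fintype.ofFinite X
    have h3 := Pool.Agent.H643R2.Ead.cone_mul h1 h2
    have e : L₁ * L₂ = {x | ∃ a ∈ L₁, ∃ b ∈ L₂, x = a ++ b} := by
      ext x
      rw [Language.mem_mul]
      constructor
      · rintro ⟨a, ha, b, hb, rfl⟩; exact ⟨a, ha, b, hb, rfl⟩
      · rintro ⟨a, ha, b, hb, rfl⟩; exact ⟨a, ha, b, hb, rfl⟩
    show InCone _ (L₁ * L₂)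
    rw [e]; exact h3
  · exact ⟨_, inferInstance, _, hid, [], Pool.Agent.H643R2.Ead.nil_mem_Lg⟩
  · exact Pool.Agent.H643R2.Ead.Pal_cf
  · exact Pool.Agent.H643R2.Ead.not_inCone_Pal

end Pool.Agent.Results.MP_ead56d_lc.SmallerCone
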